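import Pool.Agent.Y868.TG.B1
import Pool.Agent.Y868.TD.R3

/-! The Liouville function at systems in all residue classes to large moduli, in mean square. -/

set_option autoImplicit false

namespace Pool.Agent.Y868.TG

open Finset Filter
open Pool.Agent.H373R2.T7 (ev_L')
open Pool.Agent.Y868.TD
open Pool.Agent.Y868.TC (bx bx_card)
open Pool.Agent.Helper112 (ee ls_norm_ee)

lemma ee_re (y : ℝ) : (ee y).re = Real.cos (2 * Real.pi * y) := by
  unfold ee
  rw [show (2 * (Real.pi : ℂ) * (y : ℂ) * Complex.I) = ((2 * Real.pi * y : ℝ) : ℂ) * Complex.I by push_cast; ring]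
  exact Complex.exp_ofReal_mul_I_re _

lemma ee_im (y : ℝ) : (ee y).im = Real.sin (2 * Real.pi * y) := by
  unfold ee
  rw [show (2 * (Real.pi : ℂ) * (y : ℂ) * Complex.I) = ((2 * Real.pi * y : ℝ) : ℂ) * Complex.I by push_cast; ring]
  exact Complex.exp_ofReal_mul_I_im _

lemma norm_twist (S : Finset ℕ) (g : ℕ → ℝ) (y : ℕ → ℝ) (M : ℝ)
    (h1 : |∑ n ∈ S, g n * Real.cos (2 * Real.pi * y n)| ≤ M) (h2 : |∑ n ∈ S, g n * Real.sin (2 * Real.pi * y n)| ≤ M) :
    ‖∑ n ∈ S, (g n : ℂ) * ee (y n)‖ ≤ 2 * M := by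
  refine (Complex.norm_le_abs_re_add_abs_im _).trans ?_
  have e1 : (∑ n ∈ S, (g n : ℂ) * ee (y n)).re = ∑ n ∈ S, g n * Real.cos (2 * Real.pi * y n) := by
    rw [Complex.re_sum]
    refine sum_congr rfl fun n _ => ?_
    rw [Complex.re_ofReal_mul, ee_re]
  have e2 : (∑ n ∈ S, (g n : ℂ) * ee (y n)).im = ∑ n ∈ S, g n * Real.sin (2 * Real.pi * y n) := by
    rw [Complex.im_sum]
    refine sum_congr rfl fun n _ => ?_
    rw [Complex.im_ofReal_mul, ee_im]
  rw [e1, e2]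
  linarith

/-- the theorem for a family with an arbitrary index set -/
theorem finalI (k U K : ℕ) : ∃ C x0 : ℕ, ∀ x : ℕ, x0 ≤ x →
    ∀ D B : ℕ, Real.log x ^ C ≤ D → (D : ℝ) ≤ (x : ℝ) ^ K →
    (D : ℝ) * x ≤ B * Real.log x ^ K → (B : ℝ) ≤ D * x * Real.log x ^ K →
    ∀ s : Fin k → ℕ → ℤ, (∀ i, ∀ m ∈ Icc 1 x, ((|s i m| : ℤ) : ℝ) ≤ B * x * Real.log x ^ K) →
    ∀ (ι : Type) (T : Finset ι), (#T : ℝ) ≤ Real.log x ^ K → ∀ w : ι → ℕ → ℝ, (∀ t m, |w t m| ≤ 1) →
    ∃ Bad ⊆ bx D B k, (#Bad : ℝ) ≤ ((D : ℝ) * B) ^ k / Real.log x ^ U ∧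
      ∀ e ∈ bx D B k, e ∉ Bad → ∀ t ∈ T, ∀ u v : ℕ, u ≤ v → v ≤ x →
        (∀ I : Finset (Fin k), I.Nonempty →
          |∑ m ∈ Ioc u v, w t m * ∏ i ∈ I, lam (fl s e i m)| ≤ x / Real.log x ^ U) ∧
        ∀ ε : Fin k → ℝ, (∀ i, ε i = 1 ∨ ε i = -1) →
          |∑ m ∈ (Ioc u v).filter (fun m => ∀ i, lam (fl s e i m) = ε i), w t m - (1 / 2) ^ k * ∑ m ∈ Ioc u v, w t m| ≤
            x / Real.log x ^ U := by
  classical
  obtain ⟨C, x0, h0⟩ := final k U K
  refine ⟨C, x0, fun x hx D B hD1 hD2 hDB hBD s hs ι T hT w hw => ?_⟩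
  obtain ⟨Bad, h1, h2, h3⟩ := h0 x hx D B hD1 hD2 hDB hBD s hs #T hT
    (fun n m => if h : n < #T then w (T.equivFin.symm ⟨n, h⟩) m else 0) (fun n m => by
      split_ifs
      · exact hw _ _
      · simp)
  refine ⟨Bad, h1, h2, fun e he hbad t ht u v huv hvx => ?_⟩
  have h4 := h3 e he hbad (T.equivFin ⟨t, ht⟩ : ℕ) (T.equivFin ⟨t, ht⟩).2 u v huv hvx
  have h5 : (fun m : ℕ => if h : ((T.equivFin ⟨t, ht⟩ : Fin #T) : ℕ) < #T then w (T.equivFin.symm ⟨(T.equivFin ⟨t, ht⟩ : ℕ), h⟩) m else 0) = w t := by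
    funext m
    rw [dif_pos (T.equivFin ⟨t, ht⟩).2]
    simp
  have h6 : ∀ m : ℕ, (if h : ((T.equivFin ⟨t, ht⟩ : Fin #T) : ℕ) < #T then w (T.equivFin.symm ⟨(T.equivFin ⟨t, ht⟩ : ℕ), h⟩) m else 0) = w t m :=
    fun m => congrFun h5 m
  simp only [h6] at h4
  exact h4

/-- **Mean square over all classes to all moduli.** -/
theorem bdhL (k U K : ℕ) : ∃ C x0 : ℕ, ∀ x : ℕ, x0 ≤ x →
    ∀ D B : ℕ, Real.log x ^ C ≤ D → (D : ℝ) ≤ (x : ℝ) ^ K →
    (D : ℝ) * x ≤ B * Real.log x ^ K → (B : ℝ) ≤ D * x * Real.log x ^ K →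
    ∀ s : Fin k → ℕ → ℤ, (∀ i, ∀ m ∈ Icc 1 x, ((|s i m| : ℤ) : ℝ) ≤ B * x * Real.log x ^ K) →
    ∀ N : ℕ, (N : ℝ) ≤ Real.log x ^ K → ∀ w : ℕ → ℕ → ℝ, (∀ t m, |w t m| ≤ 1) →
    ∃ Bad ⊆ bx D B k, (#Bad : ℝ) ≤ ((D : ℝ) * B) ^ k / Real.log x ^ U ∧
      ∀ e ∈ bx D B k, e ∉ Bad → ∀ t < N, ∀ u v : ℕ, u ≤ v → v ≤ x → ∀ Q : ℕ, (Q : ℝ) * Real.log x ^ (U + 3) ≤ x →
        (∀ I : Finset (Fin k), I.Nonempty →
          ∑ q ∈ Icc 1 Q, ∑ r ∈ range q, (∑ m ∈ (Ioc u v).filter (fun m => m % q = r), w t m * ∏ i ∈ I, lam (fl s e i m)) ^ 2 ≤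
            x ^ 2 / Real.log x ^ U) ∧
        ∀ ε : Fin k → ℝ, (∀ i, ε i = 1 ∨ ε i = -1) →
          ∑ q ∈ Icc 1 Q, ∑ r ∈ range q, (∑ m ∈ (Ioc u v).filter (fun m => m % q = r ∧ ∀ i, lam (fl s e i m) = ε i), w t m -
            (1 / 2) ^ k * ∑ m ∈ (Ioc u v).filter (fun m => m % q = r), w t m) ^ 2 ≤ x ^ 2 / Real.log x ^ U := by
  classical
  obtain ⟨C, x0, h0⟩ := finalI k (U + 4) (K + 2 * U + 12)
  obtain ⟨n1, h1⟩ := ev_L' 1000
  refine ⟨C, max x0 (max n1 1), fun x hx D B hD1 hD2 hDB hBD s hs N hN w hw => ?_⟩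
  have hx0 : x0 ≤ x := (le_max_left _ _).trans hx
  have a1 := h1 x (((le_max_left _ _).trans (le_max_right _ _)).trans hx)
  have hx1 : 1 ≤ x := ((le_max_right _ _).trans (le_max_right _ _)).trans hx
  set L := Real.log x with hL
  have hL1 : 1 ≤ L := by linarith
  have hL0 : 0 < L := by linarith
  have hLp : ∀ n : ℕ, 0 < L ^ n := fun n => by positivity
  have hLp1 : ∀ n : ℕ, 1 ≤ L ^ n := fun n => one_le_pow₀ hL1
  have hxr : (1 : ℝ) ≤ x := by exact_mod_cast hx1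
  have hxp : (0 : ℝ) < x := by linarith
  have hKK : L ^ K ≤ L ^ (K + 2 * U + 12) := pow_le_pow_right₀ hL1 (by omega)
  -- the frequencies
  obtain ⟨R0, hR0d⟩ : ∃ R0 : ℕ, R0 = ⌈L ^ (U + 3)⌉₊ := ⟨_, rfl⟩
  have hR1 : L ^ (U + 3) ≤ R0 := by rw [hR0d]; exact Nat.le_ceil _
  have hR2 : (R0 : ℝ) ≤ 2 * L ^ (U + 3) := by
    have : (R0 : ℝ) ≤ L ^ (U + 3) + 1 := by rw [hR0d]; exact (Nat.ceil_lt_add_one (by positivity)).le
    have := hLp1 (U + 3)
    linarith
  have hR3 : 1 ≤ R0 := by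
    have : (1 : ℝ) ≤ R0 := (hLp1 _).trans hR1
    exact_mod_cast this
  set T : Finset (ℕ × ℕ × ℕ × Bool) := range N ×ˢ (range (R0 + 1) ×ˢ (range (R0 + 1) ×ˢ univ)) with hT
  have hTc : (#T : ℝ) ≤ L ^ (K + 2 * U + 12) := by
    rw [hT, card_product, card_product, card_product, card_range, card_range, card_univ, Fintype.card_bool]
    push_cast
    have e1 : (R0 : ℝ) + 1 ≤ L ^ (U + 4) := by
      have e2 : L ^ (U + 4) = L * L ^ (U + 3) := by rw [pow_succ L (U + 3)]; ring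
      have e3 := hLp1 (U + 3)
      rw [e2]
      nlinarith
    calc (N : ℝ) * (((R0 : ℝ) + 1) * (((R0 : ℝ) + 1) * 2)) ≤ L ^ K * (L ^ (U + 4) * (L ^ (U + 4) * L)) := by
          apply mul_le_mul hN _ (by positivity) (by positivity)
          apply mul_le_mul e1 _ (by positivity) (by positivity)
          exact mul_le_mul e1 (by linarith) (by positivity) (by positivity)
      _ = L ^ (K + 2 * U + 9) := by rw [← pow_succ, ← pow_add, ← pow_add]; congr 1; ring
      _ ≤ _ := pow_le_pow_right₀ hL1 (by omega)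
  set tw : ℕ → ℕ → Bool → ℕ → ℝ := fun f a σ m =>
    if σ then Real.cos (2 * Real.pi * ((m : ℝ) * a / f)) else Real.sin (2 * Real.pi * ((m : ℝ) * a / f)) with htw
  have htw1 : ∀ f a σ m, |tw f a σ m| ≤ 1 := by
    intro f a σ m
    rw [htw]
    simp only
    split_ifs
    · exact Real.abs_cos_le_one _
    · exact Real.abs_sin_le_one _
  obtain ⟨Bad, hB1, hB2, hB3⟩ := h0 x hx0 D B hD1 (hD2.trans (pow_le_pow_right₀ hxr (by omega)))
    (hDB.trans (mul_le_mul_of_nonneg_left hKK (Nat.cast_nonneg _)))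
    (hBD.trans (mul_le_mul_of_nonneg_left hKK (by positivity))) s
    (fun i m hm => (hs i m hm).trans (mul_le_mul_of_nonneg_left hKK (by positivity)))
    (ℕ × ℕ × ℕ × Bool) T hTc (fun τ m => w τ.1 m * tw τ.2.1 τ.2.2.1 τ.2.2.2 m) (fun τ m => by
      rw [abs_mul]
      exact mul_le_one₀ (hw _ _) (abs_nonneg _) (htw1 _ _ _ _))
  refine ⟨Bad, hB1, ?_, ?_⟩
  · refine hB2.trans ?_
    apply div_le_div_of_nonneg_left (by positivity) (hLp _)
    exact pow_le_pow_right₀ hL1 (by omega)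
  intro e he hbad t ht u v huv hvx Q hQ
  -- the numerical bound
  have hnum : (1 + Real.log Q) * (R0 * (2 * (x / L ^ (U + 4))) ^ 2 + 24 * x * (x / R0 + 2 * Q)) ≤ x ^ 2 / L ^ U := by
    have hlogQ : Real.log Q ≤ L := by
      rcases Nat.eq_zero_or_pos Q with h | h
      · rw [h]; simp; exact hL0.le
      · apply Real.log_le_log (by exact_mod_cast h)
        have : (Q : ℝ) * 1 ≤ Q * L ^ (U + 3) := mul_le_mul_of_nonneg_left (hLp1 _) (Nat.cast_nonneg _)
        linarith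
    have hlogQ0 : 0 ≤ Real.log Q := Real.log_natCast_nonneg Q
    have hR0r : (0 : ℝ) < R0 := by exact_mod_cast hR3
    have e1 : (R0 : ℝ) * (2 * (x / L ^ (U + 4))) ^ 2 ≤ 8 * (x ^ 2 / L ^ (U + 3)) := by
      calc (R0 : ℝ) * (2 * (x / L ^ (U + 4))) ^ 2 ≤ (2 * L ^ (U + 3)) * (2 * (x / L ^ (U + 4))) ^ 2 := mul_le_mul_of_nonneg_right hR2 (by positivity)
        _ = (8 / L ^ 2) * (x ^ 2 / L ^ (U + 3)) := by
            rw [show U + 4 = (U + 3) + 1 by ring, pow_succ L (U + 3)]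
            field_simp
            ring
        _ ≤ 8 * (x ^ 2 / L ^ (U + 3)) := by
            apply mul_le_mul_of_nonneg_right _ (by positivity)
            exact div_le_self (by norm_num) (hLp1 2)
    have e2 : (x : ℝ) / R0 ≤ x / L ^ (U + 3) := div_le_div_of_nonneg_left hxp.le (hLp _) hR1
    have e3 : (Q : ℝ) ≤ x / L ^ (U + 3) := by rw [le_div_iff₀ (hLp _)]; exact hQ
    have e4 : 24 * (x : ℝ) * (x / R0 + 2 * Q) ≤ 72 * (x ^ 2 / L ^ (U + 3)) := by
      calc 24 * (x : ℝ) * (x / R0 + 2 * Q) ≤ 24 * x * (x / L ^ (U + 3) + 2 * (x / L ^ (U + 3))) := by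
            apply mul_le_mul_of_nonneg_left _ (by positivity)
            linarith
        _ = _ := by ring
    calc (1 + Real.log Q) * (R0 * (2 * (x / L ^ (U + 4))) ^ 2 + 24 * x * (x / R0 + 2 * Q)) ≤ (2 * L) * (80 * (x ^ 2 / L ^ (U + 3))) := by
          apply mul_le_mul (by linarith) (by linarith) (by positivity) (by positivity)
      _ = (160 / L ^ 2) * (x ^ 2 / L ^ U) := by
          rw [show U + 3 = U + 2 + 1 by ring, pow_succ L (U + 2), pow_add L U 2]
          field_simp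
          ring
      _ ≤ 1 * (x ^ 2 / L ^ U) := by
          apply mul_le_mul_of_nonneg_right _ (by positivity)
          rw [div_le_one (by positivity)]
          nlinarith
      _ = _ := one_mul _
  -- the conclusion from the bound for the exponential sums
  have hconc : ∀ g : ℕ → ℝ, (∀ m, |g m| ≤ 1) →
      (∀ f ∈ Icc 1 R0, ∀ a ∈ range f, ∀ σ, |∑ m ∈ Ioc u v, g m * tw f a σ m| ≤ x / L ^ (U + 4)) →
      ∑ q ∈ Icc 1 Q, ∑ r ∈ range q, (∑ m ∈ (Ioc u v).filter (fun m => m % q = r), g m) ^ 2 ≤ x ^ 2 / L ^ U := by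
    intro g hg1 hg2
    set α : ℕ → ℂ := fun m => if m ∈ Ioc u v then (g m : ℂ) else 0 with hα
    have hsub : Ioc u v ⊆ Icc 1 x := by
      intro m hm
      rw [mem_Ioc] at hm
      rw [mem_Icc]
      omega
    have hα1 : ∀ n, ‖α n‖ ≤ 1 := by
      intro n
      rw [hα]
      simp only
      split_ifs
      · rw [Complex.norm_real]
        exact hg1 n
      · simp
    have hM : ∀ f ∈ Icc 1 R0, ∀ a ∈ range f, ‖∑ n ∈ Icc 1 x, α n * ee (n * a / f)‖ ≤ 2 * (x / L ^ (U + 4)) := by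
      intro f hf a ha
      have h3 : ∑ n ∈ Icc 1 x, α n * ee (n * a / f) = ∑ n ∈ Ioc u v, (g n : ℂ) * ee (n * a / f) := by
        rw [← sum_subset hsub]
        · refine sum_congr rfl fun n hn => ?_
          rw [hα]
          simp only
          rw [if_pos hn]
        · intro n _ hn
          rw [hα]
          simp only
          rw [if_neg hn, zero_mul]
      rw [h3]
      have h4 := hg2 f hf a ha true
      have h5 := hg2 f hf a ha false
      rw [htw] at h4 h5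
      simp only [if_true, Bool.false_eq_true, if_false] at h4 h5
      exact norm_twist (Ioc u v) g (fun n => (n : ℝ) * a / f) _ h4 h5
    have h3 := bdh x R0 Q hR3 α hα1 (2 * (x / L ^ (U + 4))) (by positivity) hM
    refine le_trans (le_of_eq ?_) (h3.trans hnum)
    refine sum_congr rfl fun q _ => sum_congr rfl fun r _ => ?_
    have h4 : ∑ n ∈ (Icc 1 x).filter (fun n => n % q = r), α n = ((∑ m ∈ (Ioc u v).filter (fun m => m % q = r), g m : ℝ) : ℂ) := by
      push_cast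
      rw [← sum_subset (filter_subset_filter _ hsub)]
      · refine sum_congr rfl fun n hn => ?_
        rw [hα]
        simp only
        rw [if_pos (mem_filter.1 hn).1]
      · intro n hn1 hn2
        rw [hα]
        simp only
        rw [if_neg]
        intro h5
        exact hn2 (mem_filter.2 ⟨h5, (mem_filter.1 hn1).2⟩)
    rw [h4, Complex.norm_real, Real.norm_eq_abs, sq_abs]
  have hmem : ∀ f ∈ Icc 1 R0, ∀ a ∈ range f, ∀ σ : Bool, (t, f, a, σ) ∈ T := by
    intro f hf a ha σ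
    rw [mem_Icc] at hf
    rw [mem_range] at ha
    rw [hT, mem_product, mem_product, mem_product, mem_range, mem_range, mem_range]
    exact ⟨ht, Nat.lt_succ_of_le hf.2, Nat.lt_succ_of_le (ha.le.trans hf.2), mem_univ _⟩
  constructor
  · intro I hI
    apply hconc
    · intro m
      rw [abs_mul, abs_prod]
      exact mul_le_one₀ (hw t m) (prod_nonneg fun _ _ => abs_nonneg _) (prod_le_one (fun _ _ => abs_nonneg _) (fun i _ => lam_abs _))
    · intro f hf a ha σ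
      have h3 := (hB3 e he hbad (t, f, a, σ) (hmem f hf a ha σ) u v huv hvx).1 I hI
      refine le_trans (le_of_eq ?_) h3
      congr 1
      refine sum_congr rfl fun m _ => ?_
      ring
  · intro ε hε
    have h3 := hconc (fun m => w t m * (if ∀ i, lam (fl s e i m) = ε i then 1 else 0) - (1 / 2) ^ k * w t m) ?_ ?_
    · refine le_trans (le_of_eq ?_) h3
      refine sum_congr rfl fun q _ => sum_congr rfl fun r _ => ?_
      congr 1
      rw [sum_sub_distrib, ← mul_sum]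
      congr 1
      rw [← filter_filter, sum_filter]
      refine sum_congr rfl fun m _ => ?_
      split_ifs <;> simp
    · intro m
      have h4 : w t m * (if ∀ i, lam (fl s e i m) = ε i then 1 else 0) - (1 / 2) ^ k * w t m =
          w t m * ((if ∀ i, lam (fl s e i m) = ε i then 1 else 0) - (1 / 2) ^ k) := by ring
      rw [h4, abs_mul]
      apply mul_le_one₀ (hw t m) (abs_nonneg _)
      have h5 : (0 : ℝ) ≤ (1 / 2) ^ k := by positivity
      have h6 : (1 / 2 : ℝ) ^ k ≤ 1 := pow_le_one₀ (by norm_num) (by norm_num)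
      split_ifs
      · rw [abs_le]; constructor <;> linarith
      · rw [abs_le]; constructor <;> linarith
    · intro f hf a ha σ
      have h3 := (hB3 e he hbad (t, f, a, σ) (hmem f hf a ha σ) u v huv hvx).2 ε hε
      refine le_trans (le_of_eq ?_) h3
      congr 1
      rw [sum_filter, mul_sum, ← sum_sub_distrib]
      refine sum_congr rfl fun m _ => ?_
      split_ifs <;> ring

end Pool.Agent.Y868.TG
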