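import Mathlib
import Pool.Agent.Helper112.MultLS
import Pool.Agent.Y868.TA.C3

/-! The mean square over all residue classes to all moduli, from the large sieve. -/

set_option autoImplicit false

namespace Pool.Agent.Y868.TG

open Finset
open Pool.Agent.Helper112
open Pool.Agent.Y868.TA (harm_le)

lemma zmod_range (q : ℕ) [NeZero q] (F : ZMod q → ℝ) : ∑ b ∈ range q, F (b : ZMod q) = ∑ z : ZMod q, F z := by
  symm
  apply sum_bij (fun (z : ZMod q) _ => z.val)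
  · intro z _
    exact mem_range.2 (ZMod.val_lt z)
  · intro a _ b _ hab
    exact ZMod.val_injective q hab
  · intro b hb
    exact ⟨(b : ZMod q), mem_univ _, by rw [ZMod.val_natCast, Nat.mod_eq_of_lt (mem_range.1 hb)]⟩
  · intro z _
    rw [ZMod.natCast_zmod_val]

/-- Parseval for the classes to the modulus `q` -/
lemma parseval_classes (q N : ℕ) (hq : 1 ≤ q) (α : ℕ → ℂ) :
    (q : ℝ) * ∑ r ∈ range q, ‖∑ n ∈ (Icc 1 N).filter (fun n => n % q = r), α n‖ ^ 2 =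
      ∑ b ∈ range q, ‖∑ n ∈ Icc 1 N, α n * ee (n * b / q)‖ ^ 2 := by
  classical
  haveI : NeZero q := ⟨by omega⟩
  set Φ : ZMod q → ℂ := fun a => ∑ n ∈ (Icc 1 N).filter (fun n : ℕ => (n : ZMod q) = a), α n with hΦ
  have h1 : ∀ z : ZMod q, MLS.T q N α z = ∑ a : ZMod q, Φ a * ZMod.stdAddChar (z * a) := by
    intro z
    unfold MLS.T
    rw [hΦ]
    simp only
    rw [← sum_fiberwise (Icc 1 N) (fun n : ℕ => (n : ZMod q))]
    refine sum_congr rfl fun a _ => ?_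
    rw [sum_mul]
    refine sum_congr rfl fun n hn => ?_
    rw [(mem_filter.1 hn).2]
  have h2 := MLS.parseval q Φ
  simp_rw [← h1] at h2
  have h3 : ∑ b ∈ range q, ‖∑ n ∈ Icc 1 N, α n * ee (n * b / q)‖ ^ 2 = ∑ z : ZMod q, ‖MLS.T q N α z‖ ^ 2 := by
    rw [← zmod_range q (fun z => ‖MLS.T q N α z‖ ^ 2)]
    refine sum_congr rfl fun b _ => ?_
    rw [MLS.T_eq]
  have h4 : ∑ r ∈ range q, ‖∑ n ∈ (Icc 1 N).filter (fun n => n % q = r), α n‖ ^ 2 = ∑ a : ZMod q, ‖Φ a‖ ^ 2 := by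
    rw [← zmod_range q (fun a => ‖Φ a‖ ^ 2)]
    refine sum_congr rfl fun r hr => ?_
    rw [mem_range] at hr
    have h5 : (Icc 1 N).filter (fun n => n % q = r) = (Icc 1 N).filter (fun n : ℕ => (n : ZMod q) = (r : ZMod q)) := by
      apply filter_congr
      intro n _
      rw [ZMod.natCast_eq_natCast_iff', Nat.mod_eq_of_lt hr]
    rw [h5]
  rw [h3, h4]
  exact h2.symm

/-- the mean square over the reduced fractions -/
noncomputable def Tf (N : ℕ) (α : ℕ → ℂ) (f : ℕ) : ℝ :=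
  ∑ a ∈ (range f).filter (fun a => a.Coprime f), ‖∑ n ∈ Icc 1 N, α n * ee (n * a / f)‖ ^ 2

lemma Tf_nonneg (N : ℕ) (α : ℕ → ℂ) (f : ℕ) : 0 ≤ Tf N α f := sum_nonneg fun _ _ => by positivity

/-- all fractions to the modulus `q` in lowest terms -/
lemma fractions (q N : ℕ) (hq : 1 ≤ q) (α : ℕ → ℂ) :
    ∑ b ∈ range q, ‖∑ n ∈ Icc 1 N, α n * ee (n * b / q)‖ ^ 2 = ∑ f ∈ q.divisors, Tf N α f := by
  classical
  rw [← Nat.sum_div_divisors q (fun f => Tf N α f)]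
  rw [← sum_fiberwise_of_maps_to (s := range q) (t := q.divisors) (g := fun b => Nat.gcd b q)
    (fun b _ => Nat.mem_divisors.2 ⟨Nat.gcd_dvd_right b q, by omega⟩)]
  refine sum_congr rfl fun g hg => ?_
  rw [Nat.mem_divisors] at hg
  obtain ⟨f, hf⟩ := hg.1
  have hg0 : 0 < g := Nat.pos_of_ne_zero (by rintro rfl; rw [zero_mul] at hf; omega)
  have hf0 : 0 < f := Nat.pos_of_ne_zero (by rintro rfl; rw [mul_zero] at hf; omega)
  have hqg : q / g = f := by rw [hf]; exact Nat.mul_div_cancel_left f hg0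
  rw [hqg]
  unfold Tf
  symm
  apply sum_bij (fun a _ => g * a)
  · intro a ha
    rw [mem_filter, mem_range] at ha ⊢
    refine ⟨by rw [hf]; exact Nat.mul_lt_mul_of_pos_left ha.1 hg0, ?_⟩
    rw [hf, Nat.gcd_mul_left, ha.2.gcd_eq_one, mul_one]
  · intro a _ b _ hab
    exact Nat.eq_of_mul_eq_mul_left hg0 hab
  · intro b hb
    rw [mem_filter, mem_range] at hb
    have h1 : g ∣ b := by rw [← hb.2]; exact Nat.gcd_dvd_left b q
    obtain ⟨a, ha⟩ := h1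
    refine ⟨a, ?_, ha.symm⟩
    rw [mem_filter, mem_range]
    constructor
    · rw [ha, hf] at hb
      exact Nat.lt_of_mul_lt_mul_left hb.1
    · have h2 := hb.2
      rw [ha, hf, Nat.gcd_mul_left] at h2
      exact Nat.eq_of_mul_eq_mul_left hg0 (by rw [h2, mul_one])
  · intro a _
    congr 2
    refine sum_congr rfl fun n _ => ?_
    congr 2
    rw [hf]
    push_cast
    have e1 : (g : ℝ) ≠ 0 := by exact_mod_cast hg0.ne'
    have e2 : (f : ℝ) ≠ 0 := by exact_mod_cast hf0.ne'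
    field_simp

lemma inv_sum (Q f : ℕ) (hf : 1 ≤ f) : ∑ q ∈ (Icc 1 Q).filter (fun q => f ∣ q), 1 / (q : ℝ) ≤ (1 / f) * (1 + Real.log Q) := by
  classical
  have hf0 : (0 : ℝ) < f := by exact_mod_cast hf
  have h1 : (Icc 1 Q).filter (fun q => f ∣ q) ⊆ (Icc 1 Q).image (fun j => f * j) := by
    intro q hq
    rw [mem_filter, mem_Icc] at hq
    obtain ⟨⟨h2, h3⟩, j, hj⟩ := hq
    rw [mem_image]
    refine ⟨j, ?_, hj.symm⟩
    rw [mem_Icc]
    constructor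
    · rcases Nat.eq_zero_or_pos j with h | h
      · rw [h, mul_zero] at hj; omega
      · exact h
    · have : j ≤ f * j := Nat.le_mul_of_pos_left j hf
      omega
  calc ∑ q ∈ (Icc 1 Q).filter (fun q => f ∣ q), 1 / (q : ℝ) ≤ ∑ q ∈ (Icc 1 Q).image (fun j => f * j), 1 / (q : ℝ) :=
        sum_le_sum_of_subset_of_nonneg h1 (fun _ _ _ => by positivity)
    _ = ∑ j ∈ Icc 1 Q, (1 / (f : ℝ)) * (1 / (j : ℝ)) := by
        rw [sum_image (by intro a _ b _ hab; exact Nat.eq_of_mul_eq_mul_left (by omega : 0 < f) hab)]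
        refine sum_congr rfl fun j _ => ?_
        push_cast
        rw [one_div_mul_one_div]
    _ = (1 / f) * ∑ j ∈ Icc 1 Q, 1 / (j : ℝ) := by rw [mul_sum]
    _ ≤ _ := mul_le_mul_of_nonneg_left (harm_le Q) (by positivity)

lemma recip_le (f : ℕ) (hf : 1 ≤ f) : 1 / (f : ℝ) ≤ 4 * ∑ n ∈ Ico f (2 * f), ((n : ℝ) ^ 2)⁻¹ := by
  have hf0 : (0 : ℝ) < f := by exact_mod_cast hf
  have h1 : ∑ n ∈ Ico f (2 * f), (((2 * f : ℕ) : ℝ) ^ 2)⁻¹ ≤ ∑ n ∈ Ico f (2 * f), ((n : ℝ) ^ 2)⁻¹ := by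
    refine sum_le_sum fun n hn => ?_
    rw [mem_Ico] at hn
    have h2 : (0 : ℝ) < n := by exact_mod_cast (by omega : 0 < n)
    have h3 : (n : ℝ) ≤ ((2 * f : ℕ) : ℝ) := by exact_mod_cast hn.2.le
    exact inv_anti₀ (by positivity) (pow_le_pow_left₀ h2.le h3 2)
  rw [sum_const, Nat.card_Ico, nsmul_eq_mul] at h1
  have h4 : ((2 * f - f : ℕ) : ℝ) = f := by
    have : 2 * f - f = f := by omega
    rw [this]
  rw [h4] at h1
  have h5 : (f : ℝ) * (((2 * f : ℕ) : ℝ) ^ 2)⁻¹ = 1 / (4 * f) := by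
    push_cast
    field_simp
    norm_num
  rw [h5] at h1
  have h6 : (1 : ℝ) / f = 4 * (1 / (4 * f)) := by field_simp
  rw [h6]
  linarith

/-- the large conductors -/
lemma large_part (N R0 Q : ℕ) (hR : 1 ≤ R0) (α : ℕ → ℂ) (A : ℝ) (hA : ∑ n ∈ Icc 1 N, ‖α n‖ ^ 2 ≤ A) :
    ∑ f ∈ Ioc R0 Q, (1 / (f : ℝ)) * Tf N α f ≤ 24 * A * (N / R0 + 2 * Q) := by
  classical
  have hA0 : 0 ≤ A := le_trans (sum_nonneg fun _ _ => by positivity) hA
  have hR0 : (0 : ℝ) < R0 := by exact_mod_cast hR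
  rcases Nat.lt_or_ge Q (R0 + 1) with hQ | hQ
  · rw [Ioc_eq_empty (by omega), sum_empty]
    positivity
  have h1 : ∀ f ∈ Ioc R0 Q, (1 / (f : ℝ)) * Tf N α f ≤
      ∑ n ∈ Ioc R0 (2 * Q), (if f ≤ n then 4 * ((n : ℝ) ^ 2)⁻¹ * Tf N α f else 0) := by
    intro f hf
    rw [mem_Ioc] at hf
    have h2 := mul_le_mul_of_nonneg_right (recip_le f (by omega)) (Tf_nonneg N α f)
    refine h2.trans ?_
    rw [mul_sum, sum_mul]
    calc ∑ n ∈ Ico f (2 * f), 4 * ((n : ℝ) ^ 2)⁻¹ * Tf N α f =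
        ∑ n ∈ Ico f (2 * f), (if f ≤ n then 4 * ((n : ℝ) ^ 2)⁻¹ * Tf N α f else 0) := by
          refine sum_congr rfl fun n hn => ?_
          rw [mem_Ico] at hn
          rw [if_pos hn.1]
      _ ≤ _ := by
          apply sum_le_sum_of_subset_of_nonneg
          · intro n hn
            rw [mem_Ico] at hn
            rw [mem_Ioc]
            omega
          · intro n _ _
            have := Tf_nonneg N α f
            split_ifs <;> positivity
  have h2 : ∀ n ∈ Ioc R0 (2 * Q), ∑ f ∈ Ioc R0 Q, (if f ≤ n then 4 * ((n : ℝ) ^ 2)⁻¹ * Tf N α f else 0) ≤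
      24 * A * (N * ((n : ℝ) ^ 2)⁻¹ + 1) := by
    intro n hn
    rw [mem_Ioc] at hn
    have hn0 : (0 : ℝ) < n := by exact_mod_cast (by omega : 0 < n)
    rw [← sum_filter]
    have h3 : ∑ f ∈ (Ioc R0 Q).filter (fun f => f ≤ n), 4 * ((n : ℝ) ^ 2)⁻¹ * Tf N α f ≤
        ∑ f ∈ Icc 1 n, 4 * ((n : ℝ) ^ 2)⁻¹ * Tf N α f := by
      apply sum_le_sum_of_subset_of_nonneg
      · intro f hf
        rw [mem_filter, mem_Ioc] at hf
        rw [mem_Icc]
        omega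
      · intro f _ _
        have := Tf_nonneg N α f
        positivity
    refine h3.trans ?_
    rw [← mul_sum]
    have h4 : ∑ f ∈ Icc 1 n, Tf N α f ≤ 6 * (N + (n : ℝ) ^ 2) * A :=
      (additive_large_sieve N n α).trans (mul_le_mul_of_nonneg_left hA (by positivity))
    calc 4 * ((n : ℝ) ^ 2)⁻¹ * ∑ f ∈ Icc 1 n, Tf N α f ≤ 4 * ((n : ℝ) ^ 2)⁻¹ * (6 * (N + (n : ℝ) ^ 2) * A) :=
          mul_le_mul_of_nonneg_left h4 (by positivity)
      _ = _ := by field_simp; ring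
  calc ∑ f ∈ Ioc R0 Q, (1 / (f : ℝ)) * Tf N α f ≤
      ∑ f ∈ Ioc R0 Q, ∑ n ∈ Ioc R0 (2 * Q), (if f ≤ n then 4 * ((n : ℝ) ^ 2)⁻¹ * Tf N α f else 0) := sum_le_sum h1
    _ = ∑ n ∈ Ioc R0 (2 * Q), ∑ f ∈ Ioc R0 Q, (if f ≤ n then 4 * ((n : ℝ) ^ 2)⁻¹ * Tf N α f else 0) := sum_comm
    _ ≤ ∑ n ∈ Ioc R0 (2 * Q), 24 * A * (N * ((n : ℝ) ^ 2)⁻¹ + 1) := sum_le_sum h2
    _ = 24 * A * (N * ∑ n ∈ Ioc R0 (2 * Q), ((n : ℝ) ^ 2)⁻¹ + ((2 * Q - R0 : ℕ) : ℝ)) := by
        rw [← mul_sum, sum_add_distrib, ← mul_sum, sum_const, Nat.card_Ioc, nsmul_eq_mul, mul_one]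
    _ ≤ _ := by
        apply mul_le_mul_of_nonneg_left _ (by positivity)
        have h5 := sum_Ioc_inv_sq_le_sub (α := ℝ) (by omega : R0 ≠ 0) (by omega : R0 ≤ 2 * Q)
        have h6 : (N : ℝ) * ∑ n ∈ Ioc R0 (2 * Q), ((n : ℝ) ^ 2)⁻¹ ≤ N / R0 := by
          rw [div_eq_mul_inv]
          apply mul_le_mul_of_nonneg_left _ (Nat.cast_nonneg _)
          have : (0 : ℝ) ≤ ((2 * Q : ℕ) : ℝ)⁻¹ := by positivity
          linarith
        have h7 : ((2 * Q - R0 : ℕ) : ℝ) ≤ 2 * Q := by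
          have : 2 * Q - R0 ≤ 2 * Q := Nat.sub_le _ _
          exact_mod_cast this
        linarith

/-- **All residue classes to all moduli.** -/
theorem bdh (N R0 Q : ℕ) (hR : 1 ≤ R0) (α : ℕ → ℂ) (hα : ∀ n, ‖α n‖ ≤ 1) (M : ℝ) (hM0 : 0 ≤ M)
    (hM : ∀ f ∈ Icc 1 R0, ∀ a ∈ range f, ‖∑ n ∈ Icc 1 N, α n * ee (n * a / f)‖ ≤ M) :
    ∑ q ∈ Icc 1 Q, ∑ r ∈ range q, ‖∑ n ∈ (Icc 1 N).filter (fun n => n % q = r), α n‖ ^ 2 ≤
      (1 + Real.log Q) * (R0 * M ^ 2 + 24 * N * (N / R0 + 2 * Q)) := by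
  classical
  rcases Nat.eq_zero_or_pos Q with hQ0 | hQ0
  · subst hQ0
    simp
    positivity
  have hlog : 0 ≤ Real.log Q := Real.log_natCast_nonneg Q
  have hA : ∑ n ∈ Icc 1 N, ‖α n‖ ^ 2 ≤ N := by
    calc ∑ n ∈ Icc 1 N, ‖α n‖ ^ 2 ≤ ∑ _n ∈ Icc 1 N, (1 : ℝ) := sum_le_sum fun n _ => pow_le_one₀ (norm_nonneg _) (hα n)
      _ = N := by simp
  have h1 : ∀ q ∈ Icc 1 Q, ∑ r ∈ range q, ‖∑ n ∈ (Icc 1 N).filter (fun n => n % q = r), α n‖ ^ 2 =
      ∑ f ∈ Icc 1 Q, (if f ∣ q then (1 / (q : ℝ)) * Tf N α f else 0) := by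
    intro q hq
    rw [mem_Icc] at hq
    have hq0 : (q : ℝ) ≠ 0 := by exact_mod_cast (by omega : q ≠ 0)
    have h2 := parseval_classes q N hq.1 α
    rw [fractions q N hq.1 α] at h2
    have h3 : ∑ r ∈ range q, ‖∑ n ∈ (Icc 1 N).filter (fun n => n % q = r), α n‖ ^ 2 = (1 / (q : ℝ)) * ∑ f ∈ q.divisors, Tf N α f := by
      rw [← h2]
      field_simp
    rw [h3, mul_sum, ← sum_filter]
    apply sum_congr _ (fun _ _ => rfl)
    ext f
    rw [Nat.mem_divisors, mem_filter, mem_Icc]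
    constructor
    · rintro ⟨h4, h5⟩
      have h6 := Nat.le_of_dvd (by omega) h4
      have h7 := Nat.pos_of_dvd_of_pos h4 (by omega : 0 < q)
      exact ⟨⟨h7, h6.trans hq.2⟩, h4⟩
    · rintro ⟨_, h4⟩
      exact ⟨h4, by omega⟩
  rw [sum_congr rfl h1, sum_comm]
  have h2 : ∀ f ∈ Icc 1 Q, ∑ q ∈ Icc 1 Q, (if f ∣ q then (1 / (q : ℝ)) * Tf N α f else 0) ≤ (1 + Real.log Q) * ((1 / (f : ℝ)) * Tf N α f) := by
    intro f hf
    rw [mem_Icc] at hf
    rw [← sum_filter, ← sum_mul]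
    have h3 := mul_le_mul_of_nonneg_right (inv_sum Q f hf.1) (Tf_nonneg N α f)
    refine h3.trans (le_of_eq ?_)
    ring
  refine (sum_le_sum h2).trans ?_
  rw [← mul_sum]
  apply mul_le_mul_of_nonneg_left _ (by linarith)
  have h3 : Icc 1 Q ⊆ Icc 1 R0 ∪ Ioc R0 Q := by
    intro f hf
    rw [mem_Icc] at hf
    rw [mem_union, mem_Icc, mem_Ioc]
    omega
  have hnn : ∀ f : ℕ, 0 ≤ (1 / (f : ℝ)) * Tf N α f := fun f => mul_nonneg (by positivity) (Tf_nonneg N α f)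
  calc ∑ f ∈ Icc 1 Q, (1 / (f : ℝ)) * Tf N α f ≤ ∑ f ∈ Icc 1 R0 ∪ Ioc R0 Q, (1 / (f : ℝ)) * Tf N α f :=
        sum_le_sum_of_subset_of_nonneg h3 (fun f _ _ => hnn f)
    _ ≤ ∑ f ∈ Icc 1 R0, (1 / (f : ℝ)) * Tf N α f + ∑ f ∈ Ioc R0 Q, (1 / (f : ℝ)) * Tf N α f := by
        rw [← sum_union_inter]
        have : 0 ≤ ∑ f ∈ Icc 1 R0 ∩ Ioc R0 Q, (1 / (f : ℝ)) * Tf N α f := sum_nonneg fun f _ => hnn f
        linarith
    _ ≤ R0 * M ^ 2 + 24 * N * (N / R0 + 2 * Q) := by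
        apply add_le_add _ (large_part N R0 Q hR α N hA)
        calc ∑ f ∈ Icc 1 R0, (1 / (f : ℝ)) * Tf N α f ≤ ∑ _f ∈ Icc 1 R0, M ^ 2 := by
              refine sum_le_sum fun f hf => ?_
              have hf' := hf
              rw [mem_Icc] at hf
              have hf0 : (0 : ℝ) < f := by exact_mod_cast (by omega : 0 < f)
              have h4 : Tf N α f ≤ f * M ^ 2 := by
                unfold Tf
                calc ∑ a ∈ (range f).filter (fun a => a.Coprime f), ‖∑ n ∈ Icc 1 N, α n * ee (n * a / f)‖ ^ 2 ≤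
                    ∑ _a ∈ (range f).filter (fun a => a.Coprime f), M ^ 2 := by
                      refine sum_le_sum fun a ha => ?_
                      exact pow_le_pow_left₀ (norm_nonneg _) (hM f hf' a (mem_filter.1 ha).1) 2
                  _ = (#((range f).filter (fun a => a.Coprime f)) : ℝ) * M ^ 2 := by rw [sum_const, nsmul_eq_mul]
                  _ ≤ f * M ^ 2 := by
                      apply mul_le_mul_of_nonneg_right _ (by positivity)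
                      have := card_filter_le (range f) (fun a => a.Coprime f)
                      rw [card_range] at this
                      exact_mod_cast this
              calc (1 / (f : ℝ)) * Tf N α f ≤ (1 / (f : ℝ)) * (f * M ^ 2) := mul_le_mul_of_nonneg_left h4 (by positivity)
                _ = M ^ 2 := by field_simp
          _ = R0 * M ^ 2 := by rw [sum_const, Nat.card_Icc, nsmul_eq_mul, Nat.add_sub_cancel]

end Pool.Agent.Y868.TG
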